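import Pool.Agent.H94.CB.M07
import Pool.Agent.H94.CB.M10
import Pool.Agent.H94.CB.M11

/-!
# V MainV: entire curves in surfaces of general type, in the projective space
-/

set_option autoImplicit false

open Topology Filter MvPolynomial Metric

noncomputable section

namespace Pool.Agent.H14.V

open Pool.Agent.H17 (PN VanishesAt HolomorphicInto ZariskiClosedIn puncturedDisc)
open Pool.Agent.H36.BP (EN fs wd)
open Pool.Agent.H62.EF (MN pr)

variable {N : ℕ}

/-- `F` is an entire map to `ℂ^(N+1)` without zeros which represents `f`. -/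
def IsLift (F : ℂ → EuclideanSpace ℂ (Fin (N + 1))) (f : ℂ → PN N) : Prop :=
  Differentiable ℂ F ∧ ∀ z, ∃ h : (F z).ofLp ≠ 0, f z = Projectivization.mk ℂ (F z).ofLp h

/-- The entire curves `f` in `X` with `c ≤ |f'| ≤ L`. -/
def boundedDistortion (X : Set (PN N)) (c L : ℝ) : Set (ℂ → PN N) :=
  {f | (∀ z, f z ∈ X) ∧ ∃ F, IsLift F f ∧ ∀ z, c ≤ fs (F z) (deriv F z) ∧ fs (F z) (deriv F z) ≤ L}

/-- The entire curves `f` in `X` with `|f'| ≤ L`. -/
def brodyCurves (X : Set (PN N)) (L : ℝ) : Set (ℂ → PN N) :=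
  {f | (∀ z, f z ∈ X) ∧ ∃ F, IsLift F f ∧ ∀ z, fs (F z) (deriv F z) ≤ L}

/-- The map `f` is doubly periodic. -/
def DoublyPeriodic (f : ℂ → PN N) : Prop :=
  ∃ ω₁ ω₂ : ℂ, LinearIndependent ℝ ![ω₁, ω₂] ∧ ∀ z, f (z + ω₁) = f z ∧ f (z + ω₂) = f z

variable {P : Ideal (MvPolynomial (Fin (N + 1)) ℂ)} 

end Pool.Agent.H14.V
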